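import Pool.Agent.Helper34.Torus2

/-!
# MP_665542_gt, Q1: perturbed metrics on an embedded torus without smooth isometric immersion

Let `g₀` be the metric of a standard torus of revolution in `ℝ³` (radii `0 < r < R`). We show that
there are smooth metrics `g` on the torus, as close to `g₀` as we like (in `C⁰`, and even together
with all derivatives up to any given order), such that `(T², g)` has no isometric immersion of class
`C³` into `ℝ³`; in particular no smooth isometric embedding. So Q1 has a negative answer.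

Proof. `g = (R + c cos v)² du² + r² dv²` with `c < r` close to `r`. The total positive curvature of
this metric is `4π c / r < 4π`, but at every point of an immersed closed surface where the height
function in direction `± n` is maximal the Gauss curvature is `≥ 0`, and the cone over the Gauss map
of these points covers the unit ball, so the total positive curvature is at least `4π`.
-/

open MeasureTheory Set Filter Topology
open scoped ContDiff Real ENNReal

noncomputable section

namespace Pool.Agent.Results.MP_665542_gt.TightTorus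

open Pool.Agent.Helper34.Torus

/-- A function on the plane which is `2π`-periodic in both variables, that is, a function on the
torus `T² = ℝ² / (2πℤ)²`. -/
def DoublyPeriodic {X : Type*} (f : ℝ × ℝ → X) : Prop :=
  ∀ u v : ℝ, f (u + 2 * π, v) = f (u, v) ∧ f (u, v + 2 * π) = f (u, v)

/-- A smooth Riemannian metric `E du² + 2 F du dv + G dv²` on the torus `T² = ℝ² / (2πℤ)²`. -/
structure TorusMetric where
  E : ℝ × ℝ → ℝ
  F : ℝ × ℝ → ℝ
  G : ℝ × ℝ → ℝ
  smooth_E : ContDiff ℝ ∞ E
  smooth_F : ContDiff ℝ ∞ F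
  smooth_G : ContDiff ℝ ∞ G
  periodic_E : DoublyPeriodic E
  periodic_F : DoublyPeriodic F
  periodic_G : DoublyPeriodic G
  pos_E : ∀ p, 0 < E p
  pos_det : ∀ p, 0 < E p * G p - F p ^ 2

/-- The scalar product of two tangent vectors at the point `p`. -/
def TorusMetric.form (g : TorusMetric) (p v w : ℝ × ℝ) : ℝ :=
  g.E p * (v.1 * w.1) + g.F p * (v.1 * w.2 + v.2 * w.1) + g.G p * (v.2 * w.2)

/-- `f` is an isometric immersion of class `Cⁿ` of the torus with the metric `g` into `ℝ³`. -/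
structure IsIsometricImmersion (n : ℕ∞ω) (g : TorusMetric)
    (f : ℝ × ℝ → EuclideanSpace ℝ (Fin 3)) : Prop where
  smooth : ContDiff ℝ n f
  periodic : DoublyPeriodic f
  isometric : ∀ p v w : ℝ × ℝ, inner ℝ (fderiv ℝ f p v) (fderiv ℝ f p w) = g.form p v w

/-- `f` is an isometric embedding of class `Cⁿ` of the torus with the metric `g` into `ℝ³`: an
isometric immersion which is injective on `T² = ℝ² / (2πℤ)²`. -/
structure IsIsometricEmbedding (n : ℕ∞ω) (g : TorusMetric)
    (f : ℝ × ℝ → EuclideanSpace ℝ (Fin 3)) : Prop extends IsIsometricImmersion n g f where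
  injective : ∀ p q : ℝ × ℝ, f p = f q → ∃ k l : ℤ, q = (p.1 + k * (2 * π), p.2 + l * (2 * π))

/-- `‖g - g₀‖_{C⁰} < ε`, where the pointwise norm of the symmetric tensor `h = g - g₀` is computed
in a `g₀`-orthonormal basis `e₁, e₂` of the tangent plane:
`|h|² = h(e₁,e₁)² + 2 h(e₁,e₂)² + h(e₂,e₂)²`. -/
def C0Close (g g₀ : TorusMetric) (ε : ℝ) : Prop :=
  ∃ η < ε, ∀ p e₁ e₂ : ℝ × ℝ, g₀.form p e₁ e₁ = 1 → g₀.form p e₂ e₂ = 1 → g₀.form p e₁ e₂ = 0 →
    Real.sqrt ((g.form p e₁ e₁ - g₀.form p e₁ e₁) ^ 2 + 2 * (g.form p e₁ e₂ - g₀.form p e₁ e₂) ^ 2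
      + (g.form p e₂ e₂ - g₀.form p e₂ e₂) ^ 2) ≤ η

/-- The coefficients of `g` and `g₀` and all their partial derivatives of order at most `k` differ
by at most `ε`. -/
def CkClose (k : ℕ) (g g₀ : TorusMetric) (ε : ℝ) : Prop :=
  ∀ j ≤ k, ∀ p, ‖iteratedFDeriv ℝ j (fun q => g.E q - g₀.E q) p‖ ≤ ε ∧
    ‖iteratedFDeriv ℝ j (fun q => g.F q - g₀.F q) p‖ ≤ ε ∧
    ‖iteratedFDeriv ℝ j (fun q => g.G q - g₀.G q) p‖ ≤ ε

theorem add_mul_cos_pos {R c : ℝ} (hc : 0 ≤ c) (hcR : c < R) (v : ℝ) : 0 < R + c * Real.cos v := by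
  nlinarith [Real.neg_one_le_cos v, Real.cos_le_one v]

/-- The metric `(R + c cos v)² du² + r² dv²`. For `c = r` it is the metric of the standard torus of
revolution with radii `r < R`. -/
def rev (R c r : ℝ) (hc : 0 ≤ c) (hcR : c < R) (hr : 0 < r) : TorusMetric where
  E := fun p => (R + c * Real.cos p.2) ^ 2
  F := fun _ => 0
  G := fun _ => r ^ 2
  smooth_E := ((contDiff_const.add (contDiff_const.mul (Real.contDiff_cos.comp contDiff_snd))).pow 2)
  smooth_F := contDiff_const
  smooth_G := contDiff_const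
  periodic_E := fun u v => by simp
  periodic_F := fun u v => by simp
  periodic_G := fun u v => by simp
  pos_E := fun p => pow_pos (add_mul_cos_pos hc hcR p.2) 2
  pos_det := fun p => by
    have := pow_pos (add_mul_cos_pos hc hcR p.2) 2
    have := pow_pos hr 2
    simp only [ne_eq, OfNat.ofNat_ne_zero, not_false_eq_true, zero_pow, sub_zero]
    positivity

/-- an isometric immersion gives a surface in the sense of the helper file -/
theorem surf {R c r : ℝ} (hc : 0 ≤ c) (hcR : c < R) (hr : 0 < r)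
    {f : ℝ × ℝ → EuclideanSpace ℝ (Fin 3)} (hf : IsIsometricImmersion 3 (rev R c r hc hcR hr) f) :
    Surf f (fun v => R + c * Real.cos v) (fun v => -(c * Real.sin v))
      (fun v => -(c * Real.cos v)) r where
  smooth := hf.smooth
  apos := fun v => add_mul_cos_pos hc hcR v
  rpos := hr
  ha := fun v => by
    have := ((Real.hasDerivAt_cos v).const_mul c).const_add R
    simpa using this
  ha1 := fun v => ((Real.hasDerivAt_sin v).const_mul c).neg
  asm := contDiff_const.add (contDiff_const.mul Real.contDiff_cos)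
  hE := fun p => by
    have := hf.isometric p (1, 0) (1, 0)
    simpa [TorusMetric.form, rev, D1, D2] using this
  hF := fun p => by
    have := hf.isometric p (1, 0) (0, 1)
    simpa [TorusMetric.form, rev, D1, D2] using this
  hG := fun p => by
    have := hf.isometric p (0, 1) (0, 1)
    simpa [TorusMetric.form, rev, D1, D2] using this

/-- the integral of the positive part of `c cos` over a period -/
theorem integral_pos_part (c : ℝ) (hc : 0 ≤ c) :
    ∫ v in (-π)..π, max (-(-(c * Real.cos v))) 0 = 2 * c := by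
  have hpi := Real.pi_pos
  have hcont : Continuous fun v : ℝ => max (-(-(c * Real.cos v))) 0 := by fun_prop
  have i1 : IntervalIntegrable (fun v : ℝ => max (-(-(c * Real.cos v))) 0) volume (-π) (-(π / 2)) :=
    hcont.intervalIntegrable _ _
  have i2 : IntervalIntegrable (fun v : ℝ => max (-(-(c * Real.cos v))) 0) volume (-(π / 2)) (π / 2) :=
    hcont.intervalIntegrable _ _
  have i3 : IntervalIntegrable (fun v : ℝ => max (-(-(c * Real.cos v))) 0) volume (π / 2) π :=
    hcont.intervalIntegrable _ _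
  rw [← intervalIntegral.integral_add_adjacent_intervals (i1.trans i2) i3,
    ← intervalIntegral.integral_add_adjacent_intervals i1 i2]
  have e1 : ∫ v in (-π)..(-(π / 2)), max (-(-(c * Real.cos v))) 0 = 0 := by
    rw [intervalIntegral.integral_congr (g := fun _ => (0 : ℝ))]
    · simp
    · intro v hv
      rw [uIcc_of_le (by linarith)] at hv
      have h1 : Real.cos v ≤ 0 := by
        rw [← Real.cos_neg]
        exact Real.cos_nonpos_of_pi_div_two_le_of_le (by linarith [hv.2]) (by linarith [hv.1])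
      have : -(-(c * Real.cos v)) ≤ 0 := by
        rw [neg_neg]; exact mul_nonpos_of_nonneg_of_nonpos hc h1
      exact max_eq_right this
  have e3 : ∫ v in (π / 2)..π, max (-(-(c * Real.cos v))) 0 = 0 := by
    rw [intervalIntegral.integral_congr (g := fun _ => (0 : ℝ))]
    · simp
    · intro v hv
      rw [uIcc_of_le (by linarith)] at hv
      have h1 : Real.cos v ≤ 0 :=
        Real.cos_nonpos_of_pi_div_two_le_of_le (by linarith [hv.1]) (by linarith [hv.2])
      have : -(-(c * Real.cos v)) ≤ 0 := by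
        rw [neg_neg]; exact mul_nonpos_of_nonneg_of_nonpos hc h1
      exact max_eq_right this
  have e2 : ∫ v in (-(π / 2))..(π / 2), max (-(-(c * Real.cos v))) 0 = 2 * c := by
    rw [intervalIntegral.integral_congr (g := fun v => c * Real.cos v)]
    · rw [intervalIntegral.integral_const_mul, integral_cos]
      simp
      ring
    · intro v hv
      rw [uIcc_of_le (by linarith)] at hv
      have h1 : 0 ≤ Real.cos v := Real.cos_nonneg_of_mem_Icc hv
      have : 0 ≤ -(-(c * Real.cos v)) := by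
        rw [neg_neg]; positivity
      simp only
      rw [max_eq_left this, neg_neg]
  rw [e1, e2, e3]
  ring

/-- the obstruction -/
theorem no_immersion {R c r : ℝ} (hc : 0 ≤ c) (hcR : c < R) (hr : 0 < r) (hcr : c < r)
    (f : ℝ × ℝ → EuclideanSpace ℝ (Fin 3)) :
    ¬ IsIsometricImmersion 3 (rev R c r hc hcR hr) f := by
  intro hf
  have S := surf hc hcR hr hf
  have h := S.total_curvature (by fun_prop) (fun u v => (hf.periodic u v).1)
    (fun u v => (hf.periodic u v).2)
  rw [integral_pos_part c hc] at h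
  linarith

/-- the standard embedding of the torus of revolution -/
def std (R r : ℝ) (p : ℝ × ℝ) : EuclideanSpace ℝ (Fin 3) :=
  !₂[(R + r * Real.cos p.2) * Real.cos p.1, (R + r * Real.cos p.2) * Real.sin p.1,
    r * Real.sin p.2]

theorem std_smooth (R r : ℝ) : ContDiff ℝ ∞ (std R r) := by
  rw [contDiff_euclidean]
  intro i
  have h1 : ContDiff ℝ ∞ fun p : ℝ × ℝ => Real.cos p.1 := Real.contDiff_cos.comp contDiff_fst
  have h2 : ContDiff ℝ ∞ fun p : ℝ × ℝ => Real.sin p.1 := Real.contDiff_sin.comp contDiff_fst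
  have h3 : ContDiff ℝ ∞ fun p : ℝ × ℝ => Real.cos p.2 := Real.contDiff_cos.comp contDiff_snd
  have h4 : ContDiff ℝ ∞ fun p : ℝ × ℝ => Real.sin p.2 := Real.contDiff_sin.comp contDiff_snd
  fin_cases i
  · simpa [std] using (contDiff_const.add (contDiff_const.mul h3)).mul h1
  · simpa [std] using (contDiff_const.add (contDiff_const.mul h3)).mul h2
  · simpa [std] using contDiff_const.mul h4

theorem std_fderiv (R r : ℝ) (p v : ℝ × ℝ) : fderiv ℝ (std R r) p v =
    !₂[-(r * Real.sin p.2 * v.2) * Real.cos p.1 - (R + r * Real.cos p.2) * (Real.sin p.1 * v.1),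
      -(r * Real.sin p.2 * v.2) * Real.sin p.1 + (R + r * Real.cos p.2) * (Real.cos p.1 * v.1),
      r * (Real.cos p.2 * v.2)] := by
  have hd : DifferentiableAt ℝ (std R r) p := (std_smooth R r).differentiable (by simp) p
  have h1 : HasFDerivAt (fun q : ℝ × ℝ => q.1) (ContinuousLinearMap.fst ℝ ℝ ℝ) p := hasFDerivAt_fst
  have h2 : HasFDerivAt (fun q : ℝ × ℝ => q.2) (ContinuousLinearMap.snd ℝ ℝ ℝ) p := hasFDerivAt_snd
  have key : ∀ i, fderiv ℝ (std R r) p v i = fderiv ℝ (fun q => std R r q i) p v := by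
    intro i
    have := ((EuclideanSpace.proj i : EuclideanSpace ℝ (Fin 3) →L[ℝ] ℝ).hasFDerivAt.comp p
      hd.hasFDerivAt).fderiv
    have h5 : (fun q => std R r q i)
      = (EuclideanSpace.proj i : EuclideanSpace ℝ (Fin 3) →L[ℝ] ℝ) ∘ std R r := rfl
    rw [h5, this]
    rfl
  ext i
  rw [key i]
  fin_cases i
  · have h := ((h2.cos.const_mul r).const_add R).mul h1.cos
    have e : (fun q => std R r q 0) = fun q : ℝ × ℝ => (R + r * Real.cos q.2) * Real.cos q.1 := rfl
    show fderiv ℝ (fun q => std R r q 0) p v = _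
    rw [e]
    erw [h.fderiv]
    simp
    ring
  · have h := ((h2.cos.const_mul r).const_add R).mul h1.sin
    have e : (fun q => std R r q 1) = fun q : ℝ × ℝ => (R + r * Real.cos q.2) * Real.sin q.1 := rfl
    show fderiv ℝ (fun q => std R r q 1) p v = _
    rw [e]
    erw [h.fderiv]
    simp
    ring
  · have h := h2.sin.const_mul r
    have e : (fun q => std R r q 2) = fun q : ℝ × ℝ => r * Real.sin q.2 := rfl
    show fderiv ℝ (fun q => std R r q 2) p v = _
    rw [e]
    erw [h.fderiv]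
    simp

theorem std_embedding {R r : ℝ} (hr : 0 < r) (hrR : r < R) :
    IsIsometricEmbedding ∞ (rev R r r hr.le hrR hr) (std R r) where
  smooth := std_smooth R r
  periodic := fun u v => by
    constructor <;> simp [std]
  isometric := fun p v w => by
    rw [std_fderiv, std_fderiv, inner_coord]
    simp only [TorusMetric.form, rev]
    have h1 := Real.sin_sq_add_cos_sq p.1
    have h2 := Real.sin_sq_add_cos_sq p.2
    simp
    linear_combination ((r * Real.sin p.2) ^ 2 * v.2 * w.2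
      + (R + r * Real.cos p.2) ^ 2 * v.1 * w.1) * h1 + r ^ 2 * v.2 * w.2 * h2
  injective := fun p q h => by
    have e0 := congrArg (fun x : EuclideanSpace ℝ (Fin 3) => x 0) h
    have e1 := congrArg (fun x : EuclideanSpace ℝ (Fin 3) => x 1) h
    have e2 := congrArg (fun x : EuclideanSpace ℝ (Fin 3) => x 2) h
    simp only [std, Matrix.cons_val] at e0 e1 e2
    replace e0 : (R + r * Real.cos p.2) * Real.cos p.1 = (R + r * Real.cos q.2) * Real.cos q.1 := e0
    replace e1 : (R + r * Real.cos p.2) * Real.sin p.1 = (R + r * Real.cos q.2) * Real.sin q.1 := e1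
    replace e2 : r * Real.sin p.2 = r * Real.sin q.2 := e2
    have hp := add_mul_cos_pos hr.le hrR p.2
    have hq := add_mul_cos_pos hr.le hrR q.2
    have s1 := Real.sin_sq_add_cos_sq p.1
    have s2 := Real.sin_sq_add_cos_sq q.1
    have hsq : (R + r * Real.cos p.2) ^ 2 = (R + r * Real.cos q.2) ^ 2 := by
      calc (R + r * Real.cos p.2) ^ 2
          = ((R + r * Real.cos p.2) * Real.cos p.1) ^ 2
            + ((R + r * Real.cos p.2) * Real.sin p.1) ^ 2 := by
              linear_combination -(R + r * Real.cos p.2) ^ 2 * s1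
        _ = ((R + r * Real.cos q.2) * Real.cos q.1) ^ 2
            + ((R + r * Real.cos q.2) * Real.sin q.1) ^ 2 := by rw [e0, e1]
        _ = (R + r * Real.cos q.2) ^ 2 := by
              linear_combination (R + r * Real.cos q.2) ^ 2 * s2
    have hA : R + r * Real.cos p.2 = R + r * Real.cos q.2 := by
      exact (pow_left_inj₀ hp.le hq.le (by norm_num)).mp hsq
    have hc2 : Real.cos q.2 = Real.cos p.2 := by
      have : r * Real.cos q.2 = r * Real.cos p.2 := by linarith
      exact mul_left_cancel₀ hr.ne' this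
    have hs2 : Real.sin q.2 = Real.sin p.2 := mul_left_cancel₀ hr.ne' e2.symm
    rw [hA] at e0 e1
    have hc1 : Real.cos q.1 = Real.cos p.1 := (mul_left_cancel₀ hq.ne' e0).symm
    have hs1 : Real.sin q.1 = Real.sin p.1 := (mul_left_cancel₀ hq.ne' e1).symm
    obtain ⟨k, hk⟩ := Real.Angle.angle_eq_iff_two_pi_dvd_sub.mp (Real.Angle.cos_sin_inj hc1 hs1)
    obtain ⟨l, hl⟩ := Real.Angle.angle_eq_iff_two_pi_dvd_sub.mp (Real.Angle.cos_sin_inj hc2 hs2)
    exact ⟨k, l, Prod.ext (by simp only; linarith) (by simp only; linarith)⟩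

/-- a smooth doubly periodic function is bounded together with its derivatives of order `≤ k` -/
theorem exists_bound {ψ : ℝ × ℝ → ℝ} (hψ : ContDiff ℝ ∞ ψ) (hp : DoublyPeriodic ψ) (k : ℕ) :
    ∃ B : ℝ, 0 ≤ B ∧ ∀ j ≤ k, ∀ p, ‖iteratedFDeriv ℝ j ψ p‖ ≤ B := by
  have one : ∀ j : ℕ, ∃ B : ℝ, 0 ≤ B ∧ ∀ p, ‖iteratedFDeriv ℝ j ψ p‖ ≤ B := by
    intro j
    have hcont : Continuous fun p => ‖iteratedFDeriv ℝ j ψ p‖ :=
      (hψ.continuous_iteratedFDeriv (m := j) (by exact_mod_cast le_top)).norm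
    have hcomp : IsCompact Dom := isCompact_Icc.prod isCompact_Icc
    obtain ⟨B, hB⟩ := hcomp.bddAbove_image (f := fun p => ‖iteratedFDeriv ℝ j ψ p‖)
      hcont.continuousOn
    have per1 : ∀ u v, iteratedFDeriv ℝ j ψ (u + 2 * π, v) = iteratedFDeriv ℝ j ψ (u, v) := by
      intro u v
      have h1 : (fun z => ψ (z + (2 * π, 0))) = ψ := by
        funext z
        have := (hp z.1 z.2).1
        simpa [Prod.add_def] using this
      have h2 := iteratedFDeriv_comp_add_right (𝕜 := ℝ) (f := ψ) j ((2 * π, 0) : ℝ × ℝ) (u, v)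
      rw [h1] at h2
      rw [h2]
      simp
    have per2 : ∀ u v, iteratedFDeriv ℝ j ψ (u, v + 2 * π) = iteratedFDeriv ℝ j ψ (u, v) := by
      intro u v
      have h1 : (fun z => ψ (z + (0, 2 * π))) = ψ := by
        funext z
        have := (hp z.1 z.2).2
        simpa [Prod.add_def] using this
      have h2 := iteratedFDeriv_comp_add_right (𝕜 := ℝ) (f := ψ) j ((0, 2 * π) : ℝ × ℝ) (u, v)
      rw [h1] at h2
      rw [h2]
      simp
    refine ⟨max B 0, le_max_right _ _, ?_⟩
    rintro ⟨u, v⟩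
    obtain ⟨u', hu', e1⟩ := Function.Periodic.exists_mem_Ico₀
      (f := fun u => iteratedFDeriv ℝ j ψ (u, v)) (c := 2 * π) (fun u => per1 u v)
      (by positivity) u
    obtain ⟨v', hv', e2⟩ := Function.Periodic.exists_mem_Ico
      (f := fun v => iteratedFDeriv ℝ j ψ (u', v)) (c := 2 * π) (fun v => per2 u' v)
      (by positivity) v (-π)
    rw [e1, e2]
    refine le_trans (hB ⟨(u', v'), ⟨⟨hu'.1, hu'.2.le⟩, ⟨hv'.1, ?_⟩⟩, rfl⟩) (le_max_left _ _)
    have := hv'.2
    show v' ≤ π
    linarith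
  induction k with
  | zero =>
    obtain ⟨B, hB0, hB⟩ := one 0
    exact ⟨B, hB0, fun j hj p => by
      obtain rfl : j = 0 := Nat.le_zero.mp hj
      exact hB p⟩
  | succ k ih =>
    obtain ⟨B, hB0, hB⟩ := ih
    obtain ⟨C, hC0, hC⟩ := one (k + 1)
    refine ⟨max B C, hB0.trans (le_max_left _ _), fun j hj p => ?_⟩
    rcases Nat.lt_or_ge j (k + 1) with h | h
    · exact (hB j (Nat.lt_succ_iff.mp h) p).trans (le_max_left _ _)
    · obtain rfl : j = k + 1 := le_antisymm hj h
      exact (hC p).trans (le_max_right _ _)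

/-- the metrics with `c < r` close to `r` are close to the metric of the torus of revolution -/
theorem close {R r : ℝ} (hr : 0 < r) (hrR : r < R) (k : ℕ) {ε : ℝ} (hε : 0 < ε) :
    ∃ (c : ℝ) (hc : 0 ≤ c) (hcr : c < r),
      C0Close (rev R c r hc (hcr.trans hrR) hr) (rev R r r hr.le hrR hr) ε ∧
      CkClose k (rev R c r hc (hcr.trans hrR) hr) (rev R r r hr.le hrR hr) ε := by
  have hR : 0 < R := hr.trans hrR
  have h1 : ContDiff ℝ ∞ fun p : ℝ × ℝ => Real.cos p.2 := Real.contDiff_cos.comp contDiff_snd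
  have h2 : ContDiff ℝ ∞ fun p : ℝ × ℝ => Real.cos p.2 ^ 2 := h1.pow 2
  obtain ⟨B₁, hB₁, hb₁⟩ := exists_bound h1 (fun u v => by simp) k
  obtain ⟨B₂, hB₂, hb₂⟩ := exists_bound h2 (fun u v => by simp) k
  set K : ℝ := (2 * R + 2 * r) * (1 / (R - r) ^ 2 + B₁ + B₂ + 1) with hK
  have hRr : 0 < R - r := by linarith
  have hKpos : 0 < K := by positivity
  set δ : ℝ := min r (ε / (2 * K)) with hδ
  have hδ0 : 0 < δ := lt_min hr (by positivity)
  have hδr : δ ≤ r := min_le_left _ _
  have hδK : δ * K < ε := by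
    have h3 : δ ≤ ε / (2 * K) := min_le_right _ _
    have h4 : δ * K ≤ ε / (2 * K) * K := mul_le_mul_of_nonneg_right h3 hKpos.le
    have h5 : ε / (2 * K) * K = ε / 2 := by field_simp
    linarith
  have hc0 : 0 ≤ r - δ := by linarith
  have hcr : r - δ < r := by linarith
  refine ⟨r - δ, hc0, hcr, ⟨δ * K, hδK, ?_⟩, ?_⟩
  · intro p e₁ e₂ n1 n2 n12
    simp only [TorusMetric.form, rev] at n1 n2 n12 ⊢
    set A : ℝ := R + r * Real.cos p.2 with hA
    have hApos : 0 < A := add_mul_cos_pos hr.le hrR p.2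
    have hAge : R - r ≤ A := by
      have := Real.neg_one_le_cos p.2
      nlinarith
    set κ : ℝ := (R + (r - δ) * Real.cos p.2) ^ 2 - A ^ 2 with hκ
    have key : (A * e₁.1) ^ 2 + (A * e₂.1) ^ 2 = 1 := by
      have m1 : (A * e₁.1) ^ 2 + (r * e₁.2) ^ 2 = 1 := by linarith
      have m2 : (A * e₂.1) ^ 2 + (r * e₂.2) ^ 2 = 1 := by linarith
      have m3 : (A * e₁.1) * (A * e₂.1) + (r * e₁.2) * (r * e₂.2) = 0 := by linarith
      have m4 : (A * e₂.1) ^ 2 = (r * e₁.2) ^ 2 := by
        linear_combination -(A * e₂.1) ^ 2 * m1 + (r * e₁.2) ^ 2 * m2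
          + ((A * e₁.1) * (A * e₂.1) - (r * e₁.2) * (r * e₂.2)) * m3
      linarith
    have hsum : e₁.1 ^ 2 + e₂.1 ^ 2 = 1 / A ^ 2 := by
      field_simp
      linarith
    have d11 : (R + (r - δ) * Real.cos p.2) ^ 2 * (e₁.1 * e₁.1) + 0 * (e₁.1 * e₁.2 + e₁.2 * e₁.1)
        + r ^ 2 * (e₁.2 * e₁.2)
        - (A ^ 2 * (e₁.1 * e₁.1) + 0 * (e₁.1 * e₁.2 + e₁.2 * e₁.1) + r ^ 2 * (e₁.2 * e₁.2))
        = κ * (e₁.1 * e₁.1) := by rw [hκ]; ring
    have d12 : (R + (r - δ) * Real.cos p.2) ^ 2 * (e₁.1 * e₂.1) + 0 * (e₁.1 * e₂.2 + e₁.2 * e₂.1)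
        + r ^ 2 * (e₁.2 * e₂.2)
        - (A ^ 2 * (e₁.1 * e₂.1) + 0 * (e₁.1 * e₂.2 + e₁.2 * e₂.1) + r ^ 2 * (e₁.2 * e₂.2))
        = κ * (e₁.1 * e₂.1) := by rw [hκ]; ring
    have d22 : (R + (r - δ) * Real.cos p.2) ^ 2 * (e₂.1 * e₂.1) + 0 * (e₂.1 * e₂.2 + e₂.2 * e₂.1)
        + r ^ 2 * (e₂.2 * e₂.2)
        - (A ^ 2 * (e₂.1 * e₂.1) + 0 * (e₂.1 * e₂.2 + e₂.2 * e₂.1) + r ^ 2 * (e₂.2 * e₂.2))
        = κ * (e₂.1 * e₂.1) := by rw [hκ]; ring
    rw [d11, d12, d22]
    have hexp : (κ * (e₁.1 * e₁.1)) ^ 2 + 2 * (κ * (e₁.1 * e₂.1)) ^ 2 + (κ * (e₂.1 * e₂.1)) ^ 2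
        = (κ * (e₁.1 ^ 2 + e₂.1 ^ 2)) ^ 2 := by ring
    rw [hexp, Real.sqrt_sq_eq_abs, hsum, abs_mul, abs_of_pos (show 0 < 1 / A ^ 2 by positivity)]
    have hκb : |κ| ≤ δ * (2 * R + 2 * r) := by
      have e : κ = -(δ * Real.cos p.2) * (2 * R + (2 * r - δ) * Real.cos p.2) := by
        rw [hκ, hA]; ring
      have ab1 : |-(δ * Real.cos p.2)| ≤ δ := by
        rw [abs_neg, abs_mul, abs_of_pos hδ0]
        exact mul_le_of_le_one_right hδ0.le (Real.abs_cos_le_one p.2)
      have hrδ : 0 ≤ 2 * r - δ := by linarith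
      have ab2 : |2 * R + (2 * r - δ) * Real.cos p.2| ≤ 2 * R + 2 * r := by
        refine (abs_add_le _ _).trans ?_
        rw [abs_of_pos (show 0 < 2 * R by linarith), abs_mul, abs_of_nonneg hrδ]
        have := mul_le_of_le_one_right hrδ (Real.abs_cos_le_one p.2)
        linarith
      rw [e, abs_mul]
      exact mul_le_mul ab1 ab2 (abs_nonneg _) hδ0.le
    have hA2 : 1 / A ^ 2 ≤ 1 / (R - r) ^ 2 :=
      one_div_le_one_div_of_le (by positivity) (pow_le_pow_left₀ hRr.le hAge 2)
    calc |κ| * (1 / A ^ 2) ≤ (δ * (2 * R + 2 * r)) * (1 / (R - r) ^ 2) :=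
          mul_le_mul hκb hA2 (by positivity) (by positivity)
      _ ≤ (δ * (2 * R + 2 * r)) * (1 / (R - r) ^ 2 + B₁ + B₂ + 1) :=
          mul_le_mul_of_nonneg_left (by linarith) (by positivity)
      _ = δ * K := by rw [hK]; ring
  · intro j hj p
    have hdiff : (fun q : ℝ × ℝ => (rev R (r - δ) r hc0 (hcr.trans hrR) hr).E q
        - (rev R r r hr.le hrR hr).E q)
        = fun q => (-(2 * R * δ)) • Real.cos q.2 + (-(δ * (2 * r - δ))) • (Real.cos q.2 ^ 2) := by
      funext q
      simp only [rev, smul_eq_mul]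
      ring
    refine ⟨?_, ?_, ?_⟩
    · rw [hdiff]
      have c1 : ContDiffAt ℝ j (fun q : ℝ × ℝ => Real.cos q.2) p :=
        (h1.of_le (by exact_mod_cast le_top)).contDiffAt
      have c2 : ContDiffAt ℝ j (fun q : ℝ × ℝ => Real.cos q.2 ^ 2) p :=
        (h2.of_le (by exact_mod_cast le_top)).contDiffAt
      rw [fun_iteratedFDeriv_add_apply (c1.const_smul _) (c2.const_smul _),
        iteratedFDeriv_const_smul_apply' c1, iteratedFDeriv_const_smul_apply' c2]
      refine (norm_add_le _ _).trans ?_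
      rw [norm_smul, norm_smul, Real.norm_eq_abs, Real.norm_eq_abs, abs_neg, abs_neg,
        abs_of_nonneg (by positivity), abs_of_nonneg (mul_nonneg hδ0.le (by linarith))]
      have q1 := hb₁ j hj p
      have q2 := hb₂ j hj p
      calc 2 * R * δ * ‖iteratedFDeriv ℝ j (fun q : ℝ × ℝ => Real.cos q.2) p‖
            + δ * (2 * r - δ) * ‖iteratedFDeriv ℝ j (fun q : ℝ × ℝ => Real.cos q.2 ^ 2) p‖
          ≤ 2 * R * δ * B₁ + δ * (2 * r - δ) * B₂ :=
            add_le_add (mul_le_mul_of_nonneg_left q1 (by positivity))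
              (mul_le_mul_of_nonneg_left q2 (mul_nonneg hδ0.le (by linarith)))
        _ ≤ δ * K := by
            rw [hK]
            have t0 : 0 < 1 / (R - r) ^ 2 := by positivity
            have t1 : 0 ≤ δ * r * B₁ := by positivity
            have t2 : 0 ≤ δ * R * B₂ := by positivity
            have t3 : 0 ≤ δ * δ * B₂ := by positivity
            have t4 : 0 ≤ δ * (2 * R + 2 * r) * (1 / (R - r) ^ 2 + 1) := by positivity
            nlinarith
        _ ≤ ε := hδK.le
    · have e : (fun q : ℝ × ℝ => (rev R (r - δ) r hc0 (hcr.trans hrR) hr).F q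
          - (rev R r r hr.le hrR hr).F q) = fun _ => 0 := by
        funext q; simp [rev]
      rw [e]
      have : iteratedFDeriv ℝ j (fun _ : ℝ × ℝ => (0 : ℝ)) p = 0 := by
        have := iteratedFDeriv_fun_zero (𝕜 := ℝ) (E := ℝ × ℝ) (F := ℝ) (n := j)
        exact congrFun this p
      rw [this, norm_zero]
      exact hε.le
    · have e : (fun q : ℝ × ℝ => (rev R (r - δ) r hc0 (hcr.trans hrR) hr).G q
          - (rev R r r hr.le hrR hr).G q) = fun _ => 0 := by
        funext q; simp [rev]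
      rw [e]
      have : iteratedFDeriv ℝ j (fun _ : ℝ × ℝ => (0 : ℝ)) p = 0 := by
        have := iteratedFDeriv_fun_zero (𝕜 := ℝ) (E := ℝ × ℝ) (F := ℝ) (n := j)
        exact congrFun this p
      rw [this, norm_zero]
      exact hε.le

/-- **MP_665542_gt, Q1 (negative answer).** For all `0 < r < R` the metric
`g₀ = (R + r cos v)² du² + r² dv²` of the torus of revolution has a smooth isometric embedding into
`ℝ³`, and for all `ε > 0` and `k` there is a smooth metric `g` on the torus with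
`‖g - g₀‖_{C⁰} < ε`, and with all partial derivatives of order `≤ k` of the coefficients of `g - g₀`
at most `ε`, such that there is no isometric immersion of class `C³` of `(T², g)` into `ℝ³`.
Hence the statement of Q1 is false. -/
theorem result :
    (∀ R r : ℝ, ∀ (hr : 0 < r) (hrR : r < R),
      (∃ f₀, IsIsometricEmbedding ∞ (rev R r r hr.le hrR hr) f₀) ∧
      ∀ (k : ℕ) (ε : ℝ), 0 < ε → ∃ g : TorusMetric, C0Close g (rev R r r hr.le hrR hr) ε ∧
        CkClose k g (rev R r r hr.le hrR hr) ε ∧ ¬ ∃ f, IsIsometricImmersion 3 g f) ∧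
    ¬ ∀ g₀ : TorusMetric, (∃ f₀, IsIsometricEmbedding ∞ g₀ f₀) →
      ∃ ε > 0, ∀ g : TorusMetric, C0Close g g₀ ε → ∃ f, IsIsometricEmbedding ∞ g f := by
  have main : ∀ R r : ℝ, ∀ (hr : 0 < r) (hrR : r < R),
      (∃ f₀, IsIsometricEmbedding ∞ (rev R r r hr.le hrR hr) f₀) ∧
      ∀ (k : ℕ) (ε : ℝ), 0 < ε → ∃ g : TorusMetric, C0Close g (rev R r r hr.le hrR hr) ε ∧
        CkClose k g (rev R r r hr.le hrR hr) ε ∧ ¬ ∃ f, IsIsometricImmersion 3 g f := by
    intro R r hr hrR
    refine ⟨⟨std R r, std_embedding hr hrR⟩, fun k ε hε => ?_⟩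
    obtain ⟨c, hc, hcr, hC0, hCk⟩ := close hr hrR k hε
    exact ⟨_, hC0, hCk, fun ⟨f, hf⟩ => no_immersion hc (hcr.trans hrR) hr hcr f hf⟩
  refine ⟨main, fun hQ => ?_⟩
  obtain ⟨h0, h1⟩ := main 2 1 (by norm_num) (by norm_num)
  obtain ⟨ε, hε, h2⟩ := hQ _ h0
  obtain ⟨g, hg, -, hno⟩ := h1 0 ε hε
  obtain ⟨f, hf⟩ := h2 g hg
  have h3 : ((3 : ℕ∞) : ℕ∞ω) ≤ ((⊤ : ℕ∞) : ℕ∞ω) := WithTop.coe_le_coe.mpr le_top
  exact hno ⟨f, ⟨hf.smooth.of_le h3, hf.periodic, hf.isometric⟩⟩

end Pool.Agent.Results.MP_665542_gt.TightTorus
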